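import Mathlib

/-! # Random sets with limited independence: counting pairs of tuples with equal sums -/

set_option autoImplicit false

namespace Q167.WK

open Finset

variable {t : ℕ}

/-- the coordinates in which two tuples differ -/
def dif (x y : Fin t → ℕ) : Finset (Fin t) := univ.filter fun i => x i ≠ y i

lemma mem_dif {x y : Fin t → ℕ} {i : Fin t} : i ∈ dif x y ↔ x i ≠ y i := by
  simp [dif]

lemma card_pairs (I : Fin t → Finset ℕ) {L : ℕ} (hL : ∀ i, (I i).card ≤ L) (D : Finset (Fin t)) :
    (((Fintype.piFinset I) ×ˢ (Fintype.piFinset I)).filter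
      (fun xy => ∑ i, xy.2 i = ∑ i, xy.1 i ∧ dif xy.1 xy.2 = D)).card ≤ L ^ (t + (D.card - 1)) := by
  classical
  have hX : (Fintype.piFinset I).card ≤ L ^ t := by
    rw [Fintype.card_piFinset]
    calc ∏ i, (I i).card ≤ ∏ _i : Fin t, L := prod_le_prod' fun i _ => hL i
      _ = L ^ t := by simp
  rcases D.eq_empty_or_nonempty with hD | ⟨i0, hi0⟩
  · subst hD
    simp only [card_empty, zero_tsub, add_zero]
    refine le_trans ?_ hX
    refine card_le_card_of_injOn (fun xy => xy.1) ?_ ?_
    · intro xy hxy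
      rw [mem_coe, mem_filter, mem_product] at hxy
      exact mem_coe.2 hxy.1.1
    · intro xy hxy xy' hxy' h
      rw [mem_coe, mem_filter] at hxy hxy'
      have h1 : ∀ z : (Fin t → ℕ) × (Fin t → ℕ), dif z.1 z.2 = ∅ → z.1 = z.2 := by
        intro z hz
        funext i
        by_contra h2
        have : i ∈ dif z.1 z.2 := mem_dif.2 h2
        rw [hz] at this
        simp at this
      have h2 := h1 _ hxy.2.2
      have h3 := h1 _ hxy'.2.2
      simp only at h
      exact Prod.ext h (by rw [← h2, ← h3, h])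
  · set J : Fin t → Finset ℕ := fun i => if i ∈ D.erase i0 then I i else {0} with hJ
    have hJc : (Fintype.piFinset J).card ≤ L ^ (D.card - 1) := by
      rw [Fintype.card_piFinset]
      have h1 : ∏ i, (J i).card ≤ ∏ i, (if i ∈ D.erase i0 then L else 1) := by
        refine prod_le_prod' fun i _ => ?_
        simp only [hJ]
        split_ifs
        · exact hL i
        · simp
      refine h1.trans (le_of_eq ?_)
      rw [prod_ite]
      simp only [prod_const_one, mul_one, prod_const]
      congr 1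
      rw [← card_erase_of_mem hi0]
      congr 1
      ext i
      simp
    rw [pow_add]
    refine le_trans ?_ (Nat.mul_le_mul hX hJc)
    rw [← card_product]
    refine card_le_card_of_injOn
      (fun xy => (xy.1, fun i => if i ∈ D.erase i0 then xy.2 i else 0)) ?_ ?_
    · intro xy hxy
      rw [mem_coe, mem_filter, mem_product] at hxy
      rw [mem_coe, mem_product]
      refine ⟨hxy.1.1, ?_⟩
      rw [Fintype.mem_piFinset]
      intro i
      have h2 := (Fintype.mem_piFinset.1 hxy.1.2) i
      simp only [hJ]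
      split_ifs
      · exact h2
      · simp
    · intro xy hxy xy' hxy' h
      rw [mem_coe, mem_filter] at hxy hxy'
      simp only [Prod.mk.injEq] at h
      obtain ⟨h1, h2⟩ := h
      refine Prod.ext h1 ?_
      have h3 : ∀ i, i ≠ i0 → xy.2 i = xy'.2 i := by
        intro i hi
        by_cases hiD : i ∈ D
        · have h4 := congrFun h2 i
          simp only [mem_erase, ne_eq, hi, not_false_eq_true, hiD, and_self, if_true] at h4
          exact h4
        · have h4 : xy.1 i = xy.2 i := by
            by_contra h5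
            have : i ∈ dif xy.1 xy.2 := mem_dif.2 h5
            rw [hxy.2.2] at this
            exact hiD this
          have h5 : xy'.1 i = xy'.2 i := by
            by_contra h5
            have : i ∈ dif xy'.1 xy'.2 := mem_dif.2 h5
            rw [hxy'.2.2] at this
            exact hiD this
          rw [← h4, ← h5, h1]
      funext i
      by_cases hi : i = i0
      · subst hi
        have h4 := hxy.2.1
        have h5 := hxy'.2.1
        rw [h1, ← h5] at h4
        rw [← add_sum_erase _ _ (mem_univ i), ← add_sum_erase _ (fun j => xy'.2 j) (mem_univ i)] at h4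
        have h6 : ∑ j ∈ univ.erase i, xy.2 j = ∑ j ∈ univ.erase i, xy'.2 j :=
          sum_congr rfl fun j hj => h3 j (ne_of_mem_erase hj)
        omega
      · exact h3 i hi

/-- the square of a sum over the fibres -/
lemma sum_sq_fiber (X : Finset (Fin t → ℕ)) (f : (Fin t → ℕ) → ℝ) {M : ℕ}
    (hM : ∀ x ∈ X, ∑ i, x i < M) :
    ∑ m ∈ range M, (∑ x ∈ X with ∑ i, x i = m, f x) ^ 2 =
      ∑ x ∈ X, ∑ y ∈ X with ∑ i, y i = ∑ i, x i, f x * f y := by
  have h := sum_fiberwise_of_maps_to (s := X) (t := range M) (g := fun x => ∑ i, x i)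
    (fun x hx => mem_range.2 (hM x hx)) (fun x => ∑ y ∈ X with ∑ i, y i = ∑ i, x i, f x * f y)
  rw [← h]
  refine sum_congr rfl fun m _ => ?_
  rw [sq, sum_mul]
  refine sum_congr rfl fun x hx => ?_
  rw [mem_filter] at hx
  rw [mul_sum, hx.2]

/-- the sum over the pairs with equal sums, sorted by the coordinates in which they differ -/
lemma sum_pairs_le (I : Fin t → Finset ℕ) {L : ℕ} (hL : ∀ i, (I i).card ≤ L)
    {F : (Fin t → ℕ) → (Fin t → ℕ) → ℝ} {B : Finset (Fin t) → ℝ} (hB : ∀ D, 0 ≤ B D)
    (hF : ∀ x ∈ Fintype.piFinset I, ∀ y ∈ Fintype.piFinset I, F x y ≤ B (dif x y)) :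
    ∑ x ∈ Fintype.piFinset I, ∑ y ∈ Fintype.piFinset I with ∑ i, y i = ∑ i, x i, F x y ≤
      ∑ D : Finset (Fin t), B D * (L : ℝ) ^ (t + (D.card - 1)) := by
  classical
  set X := Fintype.piFinset I with hX
  have h1 : ∑ x ∈ X, ∑ y ∈ X with ∑ i, y i = ∑ i, x i, F x y =
      ∑ xy ∈ (X ×ˢ X) with ∑ i, xy.2 i = ∑ i, xy.1 i, F xy.1 xy.2 := by
    rw [sum_filter, sum_product]
    refine sum_congr rfl fun x _ => ?_
    rw [sum_filter]
  rw [h1]
  have h2 := sum_fiberwise_of_maps_to (s := (X ×ˢ X).filter fun xy => ∑ i, xy.2 i = ∑ i, xy.1 i)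
    (t := (univ : Finset (Finset (Fin t)))) (g := fun xy => dif xy.1 xy.2)
    (fun _ _ => mem_univ _) (fun xy => F xy.1 xy.2)
  rw [← h2]
  refine sum_le_sum fun D _ => ?_
  rw [filter_filter]
  have h3 : ∑ xy ∈ X ×ˢ X with ∑ i, xy.2 i = ∑ i, xy.1 i ∧ dif xy.1 xy.2 = D, F xy.1 xy.2 ≤
      ∑ xy ∈ X ×ˢ X with ∑ i, xy.2 i = ∑ i, xy.1 i ∧ dif xy.1 xy.2 = D, B D := by
    refine sum_le_sum fun xy hxy => ?_
    rw [mem_filter, mem_product] at hxy
    have := hF _ hxy.1.1 _ hxy.1.2
    rwa [hxy.2.2] at this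
  refine h3.trans ?_
  rw [sum_const, nsmul_eq_mul, mul_comm]
  refine mul_le_mul_of_nonneg_left ?_ (hB D)
  exact_mod_cast card_pairs I hL D

end Q167.WK
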