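import Pool.Agent.Q167.WK.A

/-! # Random sets with limited independence: second moments -/

set_option autoImplicit false

namespace Q167.WK

open Finset MeasureTheory

variable {Ω : Type*} [MeasurableSpace Ω] {t : ℕ}

/-- A random set of natural numbers with independence of order `κ`: every finite set `T` with at
most `κ` elements is contained in `A` with probability the product of the `p n`, `n` in `T`. -/
structure LimModel (μ : Measure Ω) (p : ℕ → ℝ) (κ : ℕ) (A : Ω → Set ℕ) : Prop where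
  meas : ∀ n, MeasurableSet {ω | n ∈ A ω}
  prob : ∀ T : Finset ℕ, T.card ≤ κ → μ.real {ω | ∀ n ∈ T, n ∈ A ω} = ∏ n ∈ T, p n

open Classical in
/-- the indicator of `T ⊆ A` -/
noncomputable def ind (A : Ω → Set ℕ) (T : Finset ℕ) (ω : Ω) : ℝ :=
  if ∀ n ∈ T, n ∈ A ω then 1 else 0

lemma ind_mul (A : Ω → Set ℕ) (T T' : Finset ℕ) (ω : Ω) :
    ind A T ω * ind A T' ω = ind A (T ∪ T') ω := by
  unfold ind
  by_cases h1 : ∀ n ∈ T, n ∈ A ω <;> by_cases h2 : ∀ n ∈ T', n ∈ A ω
  · have h : ∀ n ∈ T ∪ T', n ∈ A ω := fun n hn => (mem_union.1 hn).elim (h1 n) (h2 n)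
    rw [if_pos h1, if_pos h2, if_pos h, one_mul]
  · have h : ¬ ∀ n ∈ T ∪ T', n ∈ A ω := fun h => h2 fun n hn => h n (mem_union_right _ hn)
    rw [if_neg h2, if_neg h, mul_zero]
  · have h : ¬ ∀ n ∈ T ∪ T', n ∈ A ω := fun h => h1 fun n hn => h n (mem_union_left _ hn)
    rw [if_neg h1, if_neg h, zero_mul]
  · have h : ¬ ∀ n ∈ T ∪ T', n ∈ A ω := fun h => h1 fun n hn => h n (mem_union_left _ hn)
    rw [if_neg h1, if_neg h, zero_mul]

lemma ind_nonneg (A : Ω → Set ℕ) (T : Finset ℕ) (ω : Ω) : 0 ≤ ind A T ω := by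
  unfold ind
  split_ifs <;> norm_num

lemma ind_le_one (A : Ω → Set ℕ) (T : Finset ℕ) (ω : Ω) : ind A T ω ≤ 1 := by
  unfold ind
  split_ifs <;> norm_num

variable {μ : Measure Ω} {p : ℕ → ℝ} {κ : ℕ} {A : Ω → Set ℕ}

lemma LimModel.meas_all (hA : LimModel μ p κ A) (T : Finset ℕ) :
    MeasurableSet {ω | ∀ n ∈ T, n ∈ A ω} := by
  have h : {ω | ∀ n ∈ T, n ∈ A ω} = ⋂ n ∈ T, {ω | n ∈ A ω} := by
    ext ω
    simp
  rw [h]
  exact Finset.measurableSet_biInter T fun n _ => hA.meas n

lemma LimModel.ind_meas (hA : LimModel μ p κ A) (T : Finset ℕ) : Measurable (ind A T) := by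
  unfold ind
  exact Measurable.ite (hA.meas_all T) measurable_const measurable_const

lemma LimModel.ind_int [IsFiniteMeasure μ] (hA : LimModel μ p κ A) (T : Finset ℕ) :
    Integrable (ind A T) μ := by
  refine Integrable.of_bound (hA.ind_meas T).aestronglyMeasurable 1 (Filter.Eventually.of_forall ?_)
  intro ω
  rw [Real.norm_eq_abs, abs_of_nonneg (ind_nonneg A T ω)]
  exact ind_le_one A T ω

lemma LimModel.integral_ind [IsFiniteMeasure μ] (hA : LimModel μ p κ A) {T : Finset ℕ}
    (hT : T.card ≤ κ) : ∫ ω, ind A T ω ∂μ = ∏ n ∈ T, p n := by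
  rw [← hA.prob T hT]
  have h : ind A T = Set.indicator {ω | ∀ n ∈ T, n ∈ A ω} 1 := by
    funext ω
    unfold ind
    by_cases h : ∀ n ∈ T, n ∈ A ω
    · rw [if_pos h, Set.indicator_of_mem (by exact h)]
      rfl
    · rw [if_neg h, Set.indicator_of_notMem (by exact h)]
  rw [h, integral_indicator_one (hA.meas_all T)]

/-- the elements `c i + q x i` -/
def pts (q : ℕ) (c : Fin t → ℕ) (x : Fin t → ℕ) : Finset ℕ := univ.image fun i => c i + q * x i

/-- the assumptions on the index sets -/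
structure Box (q : ℕ) (c : Fin t → ℕ) (I : Fin t → Finset ℕ) (p : ℕ → ℝ) (r : ℝ) (L M : ℕ) :
    Prop where
  hc : ∀ i, c i < q
  disj : ∀ i j, i ≠ j → Disjoint (I i) (I j)
  card : ∀ i, (I i).card ≤ L
  up : ∀ i, ∀ h ∈ I i, p (c i + q * h) ≤ r
  nonneg : ∀ n, 0 ≤ p n
  sum : ∀ x ∈ Fintype.piFinset I, ∑ i, x i < M

variable {q : ℕ} {c : Fin t → ℕ} {I : Fin t → Finset ℕ} {r : ℝ} {L M : ℕ}

lemma point_inj {q a b h h' : ℕ} (ha : a < q) (hb : b < q) (h1 : a + q * h = b + q * h') :
    h = h' := by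
  have h2 : (a + q * h) / q = (b + q * h') / q := by rw [h1]
  rw [Nat.add_mul_div_left _ _ (by omega), Nat.add_mul_div_left _ _ (by omega),
    Nat.div_eq_of_lt ha, Nat.div_eq_of_lt hb] at h2
  omega

lemma Box.union_eq (x y : Fin t → ℕ) :
    pts q c x ∪ pts q c y = univ.biUnion fun i => {c i + q * x i, c i + q * y i} := by
  ext z
  simp only [pts, mem_union, mem_image, mem_univ, true_and, mem_biUnion, mem_insert, mem_singleton]
  constructor
  · rintro (⟨i, hi⟩ | ⟨i, hi⟩)
    · exact ⟨i, Or.inl hi.symm⟩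
    · exact ⟨i, Or.inr hi.symm⟩
  · rintro ⟨i, hi | hi⟩
    · exact Or.inl ⟨i, hi.symm⟩
    · exact Or.inr ⟨i, hi.symm⟩

lemma Box.pairwise (hb : Box q c I p r L M) {x y : Fin t → ℕ} (hx : x ∈ Fintype.piFinset I)
    (hy : y ∈ Fintype.piFinset I) : ∀ i ∈ (univ : Finset (Fin t)), ∀ j ∈ (univ : Finset (Fin t)),
      i ≠ j → Disjoint ({c i + q * x i, c i + q * y i} : Finset ℕ) {c j + q * x j, c j + q * y j} := by
  intro i _ j _ hij
  rw [Finset.disjoint_left]
  intro z hz hz'
  have h1 : ∃ h ∈ I i, z = c i + q * h := by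
    rw [mem_insert, mem_singleton] at hz
    rcases hz with h | h
    · exact ⟨x i, Fintype.mem_piFinset.1 hx i, h⟩
    · exact ⟨y i, Fintype.mem_piFinset.1 hy i, h⟩
  have h2 : ∃ h ∈ I j, z = c j + q * h := by
    rw [mem_insert, mem_singleton] at hz'
    rcases hz' with h | h
    · exact ⟨x j, Fintype.mem_piFinset.1 hx j, h⟩
    · exact ⟨y j, Fintype.mem_piFinset.1 hy j, h⟩
  obtain ⟨h, hh, e1⟩ := h1
  obtain ⟨h', hh', e2⟩ := h2
  have h3 : h = h' := point_inj (hb.hc i) (hb.hc j) (e1.symm.trans e2)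
  subst h3
  exact (Finset.disjoint_left.1 (hb.disj i j hij)) hh hh'

lemma pair_card (q a x y : ℕ) (hq : 0 < q) :
    ({a + q * x, a + q * y} : Finset ℕ).card = 1 + (if x ≠ y then 1 else 0) := by
  by_cases h : x = y
  · subst h
    simp
  · have h1 : a + q * x ≠ a + q * y := by
      intro h2
      have h3 : q * x = q * y := by omega
      exact h (Nat.eq_of_mul_eq_mul_left hq h3)
    rw [card_pair h1, if_pos h]

lemma Box.card_union (hb : Box q c I p r L M) {x y : Fin t → ℕ} (hx : x ∈ Fintype.piFinset I)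
    (hy : y ∈ Fintype.piFinset I) : (pts q c x ∪ pts q c y).card = t + (dif x y).card := by
  rw [Box.union_eq, card_biUnion (hb.pairwise hx hy)]
  have h1 : ∀ i ∈ (univ : Finset (Fin t)), ({c i + q * x i, c i + q * y i} : Finset ℕ).card =
      1 + (if x i ≠ y i then 1 else 0) := fun i _ =>
    pair_card q (c i) (x i) (y i) (lt_of_le_of_lt (Nat.zero_le _) (hb.hc i))
  rw [sum_congr rfl h1, sum_add_distrib, ← card_filter]
  simp [dif]

lemma Box.prod_le (hb : Box q c I p r L M) {x y : Fin t → ℕ} (hx : x ∈ Fintype.piFinset I)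
    (hy : y ∈ Fintype.piFinset I) : ∏ n ∈ pts q c x ∪ pts q c y, p n ≤ r ^ (t + (dif x y).card) := by
  rw [← hb.card_union hx hy]
  calc ∏ n ∈ pts q c x ∪ pts q c y, p n ≤ ∏ _n ∈ pts q c x ∪ pts q c y, r := by
        refine prod_le_prod (fun n _ => hb.nonneg n) ?_
        intro n hn
        rw [Box.union_eq, mem_biUnion] at hn
        obtain ⟨i, _, hi⟩ := hn
        rw [mem_insert, mem_singleton] at hi
        rcases hi with h | h
        · rw [h]
          exact hb.up i _ (Fintype.mem_piFinset.1 hx i)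
        · rw [h]
          exact hb.up i _ (Fintype.mem_piFinset.1 hy i)
    _ = r ^ (pts q c x ∪ pts q c y).card := by rw [prod_const]

lemma Box.prod_pts (hb : Box q c I p r L M) {x : Fin t → ℕ} (hx : x ∈ Fintype.piFinset I) :
    ∏ n ∈ pts q c x, p n = ∏ i, p (c i + q * x i) := by
  unfold pts
  rw [prod_image]
  intro i _ j _ hij
  by_contra hne
  have h3 : x i = x j := point_inj (hb.hc i) (hb.hc j) hij
  exact (Finset.disjoint_left.1 (hb.disj i j hne)) (Fintype.mem_piFinset.1 hx i)
    (h3 ▸ Fintype.mem_piFinset.1 hx j)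

lemma Box.card_pts (hb : Box q c I p r L M) {x : Fin t → ℕ} (hx : x ∈ Fintype.piFinset I) :
    (pts q c x).card = t := by
  have h := hb.card_union hx hx
  rw [union_self] at h
  rw [h]
  simp [dif]

lemma Box.prod_union (hb : Box q c I p r L M) {x y : Fin t → ℕ} (hx : x ∈ Fintype.piFinset I)
    (hy : y ∈ Fintype.piFinset I) (hD : dif x y = univ) :
    ∏ n ∈ pts q c x ∪ pts q c y, p n = (∏ n ∈ pts q c x, p n) * ∏ n ∈ pts q c y, p n := by
  rw [Box.union_eq, prod_biUnion (hb.pairwise hx hy), hb.prod_pts hx, hb.prod_pts hy,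
    ← prod_mul_distrib]
  refine prod_congr rfl fun i _ => ?_
  have h1 : x i ≠ y i := by
    rw [← mem_dif, hD]
    exact mem_univ i
  have h2 : c i + q * x i ≠ c i + q * y i := fun h => h1 (point_inj (hb.hc i) (hb.hc i) h)
  rw [prod_pair h2]

/-- the number of tuples of elements of the random set with a given sum -/
noncomputable def cnt (q : ℕ) (c : Fin t → ℕ) (I : Fin t → Finset ℕ) (A : Ω → Set ℕ) (m : ℕ)
    (ω : Ω) : ℝ := ∑ x ∈ Fintype.piFinset I with ∑ i, x i = m, ind A (pts q c x) ω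

/-- its mean -/
noncomputable def mean (q : ℕ) (c : Fin t → ℕ) (I : Fin t → Finset ℕ) (p : ℕ → ℝ) (m : ℕ) : ℝ :=
  ∑ x ∈ Fintype.piFinset I with ∑ i, x i = m, ∏ n ∈ pts q c x, p n

theorem moment_U [IsProbabilityMeasure μ] (hA : LimModel μ p κ A) (hb : Box q c I p r L M)
    (hκ : 2 * t ≤ κ) (hr : 0 ≤ r) :
    ∫ ω, ∑ m ∈ range M, cnt q c I A m ω ^ 2 ∂μ ≤
      ∑ D : Finset (Fin t), r ^ (t + D.card) * (L : ℝ) ^ (t + (D.card - 1)) := by
  have h1 : ∀ ω, ∑ m ∈ range M, cnt q c I A m ω ^ 2 = ∑ x ∈ Fintype.piFinset I,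
      ∑ y ∈ Fintype.piFinset I with ∑ i, y i = ∑ i, x i, ind A (pts q c x ∪ pts q c y) ω := by
    intro ω
    unfold cnt
    rw [sum_sq_fiber _ _ hb.sum]
    refine sum_congr rfl fun x _ => sum_congr rfl fun y _ => ?_
    rw [ind_mul]
  simp only [h1]
  rw [integral_finsetSum _ fun x _ => integrable_finsetSum _ fun y _ => hA.ind_int _]
  simp only [integral_finsetSum _ fun y _ => hA.ind_int _]
  refine sum_pairs_le I hb.card (fun D => by positivity) ?_
  intro x hx y hy
  rw [hA.integral_ind]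
  · exact hb.prod_le hx hy
  · rw [hb.card_union hx hy]
    have : (dif x y).card ≤ t := (card_le_univ _).trans (by simp)
    omega

theorem moment_V [IsProbabilityMeasure μ] (hA : LimModel μ p κ A) (hb : Box q c I p r L M)
    (hκ : 2 * t ≤ κ) (hr : 0 ≤ r) :
    ∫ ω, ∑ m ∈ range M, (cnt q c I A m ω - mean q c I p m) ^ 2 ∂μ ≤
      ∑ D : Finset (Fin t), (if D = univ then 0 else r ^ (t + D.card)) *
        (L : ℝ) ^ (t + (D.card - 1)) := by
  classical
  set P : (Fin t → ℕ) → ℝ := fun x => ∏ n ∈ pts q c x, p n with hP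
  have h1 : ∀ ω, ∑ m ∈ range M, (cnt q c I A m ω - mean q c I p m) ^ 2 =
      ∑ x ∈ Fintype.piFinset I, ∑ y ∈ Fintype.piFinset I with ∑ i, y i = ∑ i, x i,
        (ind A (pts q c x ∪ pts q c y) ω - P x * ind A (pts q c y) ω - P y * ind A (pts q c x) ω
          + P x * P y) := by
    intro ω
    have h2 : ∀ m, cnt q c I A m ω - mean q c I p m =
        ∑ x ∈ Fintype.piFinset I with ∑ i, x i = m, (ind A (pts q c x) ω - P x) := by
      intro m
      unfold cnt mean
      rw [← sum_sub_distrib]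
    simp only [h2]
    rw [sum_sq_fiber _ _ hb.sum]
    refine sum_congr rfl fun x _ => sum_congr rfl fun y _ => ?_
    rw [← ind_mul]
    ring
  simp only [h1]
  have hint : ∀ x y : Fin t → ℕ, Integrable (fun ω => ind A (pts q c x ∪ pts q c y) ω -
      P x * ind A (pts q c y) ω - P y * ind A (pts q c x) ω + P x * P y) μ := by
    intro x y
    exact (((hA.ind_int _).sub ((hA.ind_int _).const_mul _)).sub
      ((hA.ind_int _).const_mul _)).add (integrable_const _)
  rw [integral_finsetSum _ fun x _ => integrable_finsetSum _ fun y _ => hint x y]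
  simp only [integral_finsetSum _ fun y _ => hint _ y]
  refine sum_pairs_le I hb.card (fun D => by split_ifs <;> positivity) ?_
  intro x hx y hy
  have hxt : (pts q c x).card ≤ κ := by rw [hb.card_pts hx]; omega
  have hyt : (pts q c y).card ≤ κ := by rw [hb.card_pts hy]; omega
  have hxy : (pts q c x ∪ pts q c y).card ≤ κ := by
    rw [hb.card_union hx hy]
    have : (dif x y).card ≤ t := (card_le_univ _).trans (by simp)
    omega
  have h3 : ∫ ω, (ind A (pts q c x ∪ pts q c y) ω - P x * ind A (pts q c y) ω -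
      P y * ind A (pts q c x) ω + P x * P y) ∂μ =
      (∏ n ∈ pts q c x ∪ pts q c y, p n) - P x * P y := by
    have e1 : Integrable (fun ω => ind A (pts q c x ∪ pts q c y) ω) μ := hA.ind_int _
    have e2 : Integrable (fun ω => P x * ind A (pts q c y) ω) μ := (hA.ind_int _).const_mul _
    have e3 : Integrable (fun ω => P y * ind A (pts q c x) ω) μ := (hA.ind_int _).const_mul _
    have e4 : Integrable (fun _ : Ω => P x * P y) μ := integrable_const _
    have e12 : Integrable (fun ω => ind A (pts q c x ∪ pts q c y) ω - P x * ind A (pts q c y) ω)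
      μ := e1.sub e2
    have e123 : Integrable (fun ω => ind A (pts q c x ∪ pts q c y) ω - P x * ind A (pts q c y) ω -
      P y * ind A (pts q c x) ω) μ := e12.sub e3
    rw [integral_add e123 e4, integral_sub e12 e3, integral_sub e1 e2,
      integral_const_mul, integral_const_mul, hA.integral_ind hxy, hA.integral_ind hxt,
      hA.integral_ind hyt, integral_const]
    simp only [probReal_univ, smul_eq_mul, one_mul, hP]
    ring
  rw [h3]
  split_ifs with hD
  · rw [hb.prod_union hx hy hD]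
    simp [hP]
  · have h4 := hb.prod_le hx hy
    have h5 : 0 ≤ P x * P y :=
      mul_nonneg (prod_nonneg fun n _ => hb.nonneg n) (prod_nonneg fun n _ => hb.nonneg n)
    linarith

/-- the closed forms of the bounds -/
lemma bound_U {L : ℕ} (hr : 0 ≤ r) (hL : 1 ≤ L) (ha : 1 ≤ r * L) :
    ∑ D : Finset (Fin t), r ^ (t + D.card) * (L : ℝ) ^ (t + (D.card - 1)) ≤
      (r * L) ^ t + 2 ^ t * ((r * L) ^ (2 * t) / L) := by
  classical
  have hL0 : (0 : ℝ) < L := by exact_mod_cast hL
  have h1 : ∀ D : Finset (Fin t), r ^ (t + D.card) * (L : ℝ) ^ (t + (D.card - 1)) ≤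
      (if D = ∅ then (r * L) ^ t else 0) + (r * L) ^ (2 * t) / L := by
    intro D
    split_ifs with h
    · subst h
      simp only [card_empty, add_zero, zero_tsub]
      rw [← mul_pow]
      have : 0 ≤ (r * L) ^ (2 * t) / (L : ℝ) := by positivity
      linarith
    · have h2 : 1 ≤ D.card := card_pos.2 (nonempty_iff_ne_empty.2 h)
      have h3 : D.card ≤ t := (card_le_univ _).trans (by simp)
      rw [zero_add, le_div_iff₀ hL0]
      have h4 : r ^ (t + D.card) * (L : ℝ) ^ (t + (D.card - 1)) * L = (r * L) ^ (t + D.card) := by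
        rw [mul_pow, mul_assoc, ← pow_succ]
        congr 2
        omega
      rw [h4]
      exact pow_le_pow_right₀ ha (by omega)
  refine (sum_le_sum fun D _ => h1 D).trans (le_of_eq ?_)
  rw [sum_add_distrib, sum_ite_eq']
  simp

lemma bound_V {L : ℕ} (hr : 0 ≤ r) (hL : 1 ≤ L) (ha : 1 ≤ r * L) (ht : 1 ≤ t) :
    ∑ D : Finset (Fin t), (if D = univ then 0 else r ^ (t + D.card)) *
        (L : ℝ) ^ (t + (D.card - 1)) ≤
      (r * L) ^ t + 2 ^ t * ((r * L) ^ (2 * t - 1) / L) := by
  classical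
  have hL0 : (0 : ℝ) < L := by exact_mod_cast hL
  have h1 : ∀ D : Finset (Fin t), (if D = univ then 0 else r ^ (t + D.card)) *
      (L : ℝ) ^ (t + (D.card - 1)) ≤
      (if D = ∅ then (r * L) ^ t else 0) + (r * L) ^ (2 * t - 1) / L := by
    intro D
    have h6 : 0 ≤ (r * L) ^ (2 * t - 1) / (L : ℝ) := by positivity
    by_cases hu : D = univ
    · rw [if_pos hu, zero_mul]
      split_ifs
      · positivity
      · linarith
    rw [if_neg hu]
    split_ifs with h
    · subst h
      simp only [card_empty, add_zero, zero_tsub]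
      rw [← mul_pow]
      linarith
    · have h2 : 1 ≤ D.card := card_pos.2 (nonempty_iff_ne_empty.2 h)
      have h3 : D.card < t := by
        have := card_lt_univ_of_notMem (s := D) (x := (not_forall.1 (fun h => hu
          (eq_univ_iff_forall.2 h))).choose) (not_forall.1 (fun h => hu
          (eq_univ_iff_forall.2 h))).choose_spec
        simpa using this
      rw [zero_add, le_div_iff₀ hL0]
      have h4 : r ^ (t + D.card) * (L : ℝ) ^ (t + (D.card - 1)) * L = (r * L) ^ (t + D.card) := by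
        rw [mul_pow, mul_assoc, ← pow_succ]
        congr 2
        omega
      rw [h4]
      exact pow_le_pow_right₀ ha (by omega)
  refine (sum_le_sum fun D _ => h1 D).trans (le_of_eq ?_)
  rw [sum_add_distrib, sum_ite_eq']
  simp

end Q167.WK
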